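import Pool.Agent.Helper1.T5g.ZDefs
import Pool.Agent.Helper57.T5g.Bot
import Pool.Agent.Helper57.T5g.Z0
import Pool.Agent.Helper83.T5g.Leaf
import Pool.Agent.Helper39.T5g.ZLab
import Pool.Agent.Helper30.T5g.BigQF
import Pool.Agent.Helper84.T5g.Top

/-!
# T5g (MP_12a1af), line 6: `Blk CaseInj RpC` from `ZStatS`

If the digits between the states are below the joint front of the lower state, at most a constant
number of labels have the same sum of the joint codes (`inj_sum`); every label has few hits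
(line 4).
-/

set_option autoImplicit false

namespace Pool.Agent.Helper1.T5g

open Finset Pool.Agent.Helper37.T5g Pool.Agent.Helper84.T5g Pool.Agent.Helper42.T5.Pr
open Pool.Agent.Helper44.T5g Pool.Agent.Helper44.T5b
open Pool.Agent.Helper5.ET (bb era)
open Pool.Agent.Helper30.T5g (BP)

/-- representatives of the values of a function -/
theorem exists_reps {α : Type*} [DecidableEq α] (L : Finset α) (s : α → ℕ) :
    ∃ H ⊆ L, Set.InjOn s (H : Set α) ∧ H.card = (L.image s).card := by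
  rcases Nat.eq_zero_or_pos (L.image s).card with h | h
  · exact ⟨∅, empty_subset _, by simp, by simp [h]⟩
  · obtain ⟨T, hT, hc, hi⟩ := Pool.Agent.Helper75.T5.exists_inj_subset L s
      ((L.image s).card - 1) (by omega)
    exact ⟨T, hT, hi, by omega⟩

/-- the labels of the hits, up to the multiplicity of the sums -/
theorem LbH_card_le {m : Sq} {k l l' : ℕ} {w : Key → ℕ} {n M : ℕ}
    (hM : ∀ T, ((LbH m k l l' w n).filter (fun q => sJ m k l l' w q = T)).card ≤ M) :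
    ∃ c, ZHitC m k l l' w c ∧ (LbH m k l l' w n).card ≤ c * M := by
  classical
  obtain ⟨H, hH, hinj, hc⟩ := exists_reps (LbH m k l l' w n) (sJ m k l l' w)
  refine ⟨H.card, ⟨n, H, hH, hinj, rfl⟩, ?_⟩
  rw [hc, card_eq_sum_card_image (sJ m k l l' w) (LbH m k l l' w n)]
  exact sum_le_card_nsmul _ _ _ (fun b _ => hM b)

/-- every hit has its label -/
theorem Hts_card_le {m : Sq} {k l l' : ℕ} {w : Key → ℕ} {n : ℕ} {R : ℕ}
    (hR : ∀ x x' : JF → ℕ, ((Hts m k l l' w n).filter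
      (fun q => q.1.1.1 = x ∧ q.2.1.1 = x')).card ≤ R) :
    (Hts m k l l' w n).card ≤ (LbH m k l l' w n).card * R := by
  classical
  unfold LbH
  rw [card_eq_sum_card_image (fun q : Par m k l × Par m k l' => (q.1.1.1, q.2.1.1))
    (Hts m k l l' w n)]
  refine sum_le_card_nsmul _ _ _ (fun b _ => ?_)
  refine le_trans (card_le_card ?_) (hR b.1 b.2)
  intro q hq
  obtain ⟨h1, h2⟩ := mem_filter.1 hq
  exact mem_filter.2 ⟨h1, congrArg Prod.fst h2, congrArg Prod.snd h2⟩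

/-- **line 6** -/
theorem blk_inj_of (hZ : ZStatS) : Blk CaseInj RpC := by
  classical
  obtain ⟨E, k1, hZ⟩ := hZ
  obtain ⟨E', k2, hf⟩ := Pool.Agent.Helper83.T5g.blk_leaf
  refine ⟨E + E' + 1, max k1 (max k2 3), fun m hm hk => ?_⟩
  have hk1 : k1 ≤ m.k := (le_max_left _ _).trans hk
  have hk2 : k2 ≤ m.k := (le_max_left _ _).trans ((le_max_right _ _).trans hk)
  have hk3 : 3 ≤ m.k := (le_max_right _ _).trans ((le_max_right _ _).trans hk)
  have hm0 : m.Ok := hm.toOk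
  have hQ : Pool.Agent.Helper30.T5g.BigQ m m.k := Pool.Agent.Helper30.T5g.bigQ_of_okF hm
  obtain ⟨K1, c1, m1', a2, a3, hZ⟩ := hZ m hm hk1
  obtain ⟨K2, c2, m2', b2, b3, hf⟩ := hf m hm hk2
  obtain ⟨K3, h3⟩ := exists_conds hm0 m.k
  obtain ⟨K4, h4⟩ := Pool.Agent.Helper30.T5g.exists_late (k := m.k) hm0 0 0
  have hCC : (2 * BP m.k) ^ 7 ≤ 2 ^ m.q 0 := by
    have h1 := hm.BP16_le
    have h2 : 1 ≤ 2 ^ 40 * BP m.k :=
      Nat.mul_pos (by norm_num) (Pool.Agent.Helper99.T5g.BP_pos' m.k)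
    calc (2 * BP m.k) ^ 7 ≤ (2 ^ 40 * BP m.k) ^ 7 :=
          Nat.pow_le_pow_left (Nat.mul_le_mul_right _ (by norm_num)) _
      _ ≤ (2 ^ 40 * BP m.k) ^ 16 := Nat.pow_le_pow_right h2 (by omega)
      _ ≤ _ := h1
  refine ⟨max K1 K2 + K3 + K4 + 1, min c1 c2, m1' + m2', lt_min a2 b2, by positivity, ?_⟩
  intro l l' hl' hll hap hp K hK hK'
  have h1 : K1 ≤ l' := by omega
  have h2 : K2 ≤ l' := by omega
  have hl1 : (1 : ℝ) ≤ (l : ℝ) := by exact_mod_cast (show 1 ≤ l by omega)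
  have hD := Pool.Agent.Helper57.T5g.DZ.of_inj hm0 hll hp
  have hA := hZ l l' h1 hll hap hD K hK hK'
  have hB := hf l l' h2 hll hap hD.near K hK hK'
  obtain ⟨g1, -, -, -⟩ := h3 l' (by omega)
  obtain ⟨_, g2, g3, _, _⟩ := h4 l' (by omega)
  have hclose := Pool.Agent.Helper39.T5g.close_of_near hm0 hll g1 g3 hD.near
  refine PrLe_mono (fun r _ hw => ?_) ?_ (PrLe_or hA hB)
  · generalize ext K r = w at hw ⊢
    by_contra hcon
    rw [not_or] at hcon
    obtain ⟨hn1, hn2⟩ := hcon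
    push Not at hn1 hn2
    obtain ⟨c, ⟨n, rfl⟩, hlt⟩ := hw
    have hmul : ∀ T, ((LbH m m.k l l' w n).filter
        (fun q => sJ m m.k l l' w q = T)).card ≤ (2 * BP m.k) ^ 7 := by
      intro T
      refine le_trans (card_le_card ?_) ((inj_sum hm0 g1 hll hp.2.1 hclose hp.2.2 w T).trans
        (Pool.Agent.Helper57.T5g.CJ_le _ _))
      intro q hq
      obtain ⟨q1, q2⟩ := mem_filter.1 hq
      refine mem_filter.2 ⟨?_, q2⟩
      rw [LbH, mem_image] at q1
      obtain ⟨p, hp1, rfl⟩ := q1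
      have hp2 := (mem_product.1 (mem_filter.1 hp1).1)
      exact mem_product.2 ⟨(mem_product.1 (mem_product.1 hp2.1).1).1,
        (mem_product.1 (mem_product.1 hp2.2).1).1⟩
    obtain ⟨c, hc1, hc2⟩ := LbH_card_le hmul
    have hc3 := hn1 c hc1
    have hcard := Hts_card_le (w := w) (n := n) (R := 2 ^ (E' * m.q 0))
      (fun x x' => hn2 _ ⟨n, x, x', rfl⟩)
    have h5 : Rp m m.k l l' w n ≤ 2 ^ ((E + E' + 1) * m.q 0) := by
      calc Rp m m.k l l' w n ≤ (c * (2 * BP m.k) ^ 7) * 2 ^ (E' * m.q 0) :=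
            ((Rp_le m m.k l l' w n).trans hcard).trans (Nat.mul_le_mul_right _ hc2)
        _ ≤ (2 ^ (E * m.q 0) * 2 ^ m.q 0) * 2 ^ (E' * m.q 0) :=
            Nat.mul_le_mul_right _ (Nat.mul_le_mul hc3 hCC)
        _ = _ := by
            rw [← pow_add, ← pow_add]
            congr 1
            ring
    omega
  · have e1 : Real.exp (-((l : ℝ) ^ c1)) ≤ Real.exp (-((l : ℝ) ^ min c1 c2)) :=
      Real.exp_le_exp.2 (neg_le_neg (Real.rpow_le_rpow_of_exponent_le hl1 (min_le_left _ _)))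
    have e2 : Real.exp (-((l : ℝ) ^ c2)) ≤ Real.exp (-((l : ℝ) ^ min c1 c2)) :=
      Real.exp_le_exp.2 (neg_le_neg (Real.rpow_le_rpow_of_exponent_le hl1 (min_le_right _ _)))
    nlinarith [mul_le_mul_of_nonneg_left e1 a3, mul_le_mul_of_nonneg_left e2 b3]

end Pool.Agent.Helper1.T5g
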