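import Pool.Agent.Helper1.T5g.ZOk
import Pool.Agent.Helper1.T5g.ZFixed
import Pool.Agent.Helper1.T5g.Inj
import Pool.Agent.Helper30.T5g.BigQF
import Pool.Agent.Helper2.T5g.ZSize
import Pool.Agent.Helper36.T5g.ZStat
import Pool.Agent.Helper97.T5g.ConstS
import Pool.Agent.Helper37.T5g.ZWin
import Pool.Agent.Helper63.T5g.ZNum
import Pool.Agent.Helper39.T5g.ZKok
import Pool.Agent.Helper36.T5g.Two
import Pool.Agent.Helper96.T5g.MultTwo

/-!
# T5g (MP_12a1af): the lines 6 and 7
-/

set_option autoImplicit false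

namespace Pool.Agent.Helper1.T5g

open Pool.Agent.Helper84.T5g

/-- **the common target of the lines 6 and 7** -/
theorem zStat : ZStatS := by
  refine Pool.Agent.Helper36.T5g.zstat_of (fun m hm hk => ?_)
  have hm0 : m.Ok := hm.toOk
  have hQ : Pool.Agent.Helper30.T5g.BigQ m m.k := Pool.Agent.Helper30.T5g.bigQ_of_okF hm
  have hz := Pool.Agent.Helper57.T5g.hzS (m := m) (k := m.k) hm0 hk
  have hlab := Pool.Agent.Helper39.T5g.labS (m := m) (k := m.k) hm0
  have hkey := Pool.Agent.Helper12.T5g.keyS (m := m) (k := m.k) hm0 hk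
  have hok := okS (m := m) (k := m.k) hm0 hz
  have hhit := Pool.Agent.Helper55.T5g.hitS (m := m) (k := m.k) hm0 hk
  have hnum := Pool.Agent.Helper63.T5g.numZS (m := m) (k := m.k) hm0 hz
  have hwin := Pool.Agent.Helper37.T5g.ZWin.winZS_of (m := m) (k := m.k) hm0 hz hok
  have hsz := Pool.Agent.Helper2.T5g.sizeZS (m := m) hm
  have hcand := Pool.Agent.Helper39.T5g.candS m m.k
  have hkok := Pool.Agent.Helper39.T5g.kokS (m := m) (k := m.k) hm0 hz hlab hkey hok
  have hcon := Pool.Agent.Helper97.T5g.constS hz hlab hkey hok hnum hwin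
  exact fixedS hm0 hz hlab hok hhit hnum hwin hsz hcand hkok hcon

/-- **line 6** -/
theorem blk_inj : Blk CaseInj RpC := blk_inj_of zStat

/-- **line 7** -/
theorem blk_two_free : Blk CaseTwo FreeC :=
  Pool.Agent.Helper36.T5g.two_of zStat Pool.Agent.Helper96.T5g.multS

end Pool.Agent.Helper1.T5g
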