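import Pool.Agent.Helper1.T5g.ZDefs2

/-!
# T5g (MP_12a1af), lines 6 and 7: the statement for fixed windows and joint keys
-/

set_option autoImplicit false

namespace Pool.Agent.Helper1.T5g

open Finset
open Pool.Agent.Helper5.ET hiding Key Mk AA Rp keysOf el ext
open Pool.Agent.Helper27.T4
open Pool.Agent.Helper37.T5g
open Pool.Agent.Helper30.T5g hiding pz_prime pz_inj NL_pos
open Pool.Agent.Helper22.HW Pool.Agent.Helper22.SL Pool.Agent.Helper57.T5
open Pool.Agent.Helper84.T5g Pool.Agent.Helper44.T5 Pool.Agent.Helper44.T5g Pool.Agent.Helper44.T5b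
open Pool.Agent.Helper22.NEARg Pool.Agent.Helper75.T5 Pool.Agent.Helper1.T5
open Pool.Agent.Helper36.T5

/-- the label is hit through the keyed level and the levels below it -/
def KHz (m : Sq) (k l' l h : ℕ) (B B' : Finset ℕ) (w : Key → ℕ) (g : LT) : Prop :=
  KHit (pz_prime k (sL m k l)) (pz_inj k (sL m k l)) (OSu m k l) (OSl m k l' l)
    (PZo m k l' l 1 h 0 0) (fun g : LT => g.2.2) (fun g => g.1) (fun g => g.2.1) (Ys m k l 0)
    (Ys m k l 0) B B' w g

/-- A5: joint keys `w` and windows `v` fixed: few labels are hit -/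
def FixedS (m : Sq) (k : ℕ) : Prop := ∃ K0 : ℕ, ∀ l' l, K0 ≤ l' → DZ m k l' l →
    ∀ K, keysOf m k l ⊆ K → keysOf m k l' ⊆ K → ∀ (w : Key → ℕ) (n h : ℕ),
    1 + h = hz m k l' l → n < 34 * NL m k l + 1 →
    ∀ v : Key → ℕ, RegE m k l (1 + h) v → RegE m k l' (1 + h) v → ∀ N : ℕ, 1 ≤ N →
    Pool.Agent.Helper22.SL.PrG (Mk m k) (K \ (keysJ m k l l' ∪ deep m k l l' (1 + h)))
      (fun w' => ∃ H ⊆ LbT m k l l' w n, (N + 1) ^ 6000 < H.card ∧
        ∀ g ∈ H, KHz m k l' l h (Bw m k l (1 + h) v) (Bw m k l' (1 + h) v) w' g)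
      (Real.exp (2 ^ (2 * m.q 0) * l) * Real.exp (-((wW m k l (1 + h) : ℝ) / 200)) ^ N)

end Pool.Agent.Helper1.T5g
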